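import Pool.Agent.H220.IC.Stm

/-!
# MP_a21e0e_an, Q2 (helper220): sums of arrays with disjoint time supports
-/

set_option autoImplicit false

open Finset

namespace Pool.Agent.H307.IC

open Pool.Agent.H220.IC

/-- at most two nonzero terms -/
theorem card_sq {n : ℕ} (d : ℕ → ℝ) (J1 J2 : Finset ℕ) (h1 : J1.card ≤ 1) (h2 : J2.card ≤ 1)
    (hJ1 : J1 ⊆ range n) (hJ2 : J2 ⊆ range n) (hd : ∀ j ∈ range n, j ∉ J1 → j ∉ J2 → d j = 0) :
    (∑ j ∈ range n, d j) ^ 2 ≤ 2 * ∑ j ∈ range n, d j ^ 2 := by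
  have h3 : ∑ j ∈ J1 ∪ J2, d j = ∑ j ∈ range n, d j := by
    refine sum_subset (union_subset hJ1 hJ2) fun j hj hj' => ?_
    rw [mem_union, not_or] at hj'
    exact hd j hj hj'.1 hj'.2
  have h4 : ((J1 ∪ J2).card : ℝ) ≤ 2 := by
    have := card_union_le J1 J2
    have h5 : (J1 ∪ J2).card ≤ 2 := by omega
    exact_mod_cast h5
  rw [← h3]
  calc (∑ j ∈ J1 ∪ J2, d j) ^ 2 ≤ (J1 ∪ J2).card * ∑ j ∈ J1 ∪ J2, d j ^ 2 :=
        sq_sum_le_card_mul_sum_sq
    _ ≤ 2 * ∑ j ∈ J1 ∪ J2, d j ^ 2 :=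
        mul_le_mul_of_nonneg_right h4 (sum_nonneg fun _ _ => sq_nonneg _)
    _ ≤ 2 * ∑ j ∈ range n, d j ^ 2 := by
        refine mul_le_mul_of_nonneg_left ?_ (by norm_num)
        exact sum_le_sum_of_subset_of_nonneg (union_subset hJ1 hJ2) fun _ _ _ => sq_nonneg _

/-- double counting: each `l` is in at most two of the sets `I_j` -/
theorem card_two (m : ℕ) (I : Finset ℕ) (P : ℕ → ℕ → Prop) [∀ j, DecidablePred (P j)]
    (J : ℕ → Finset ℕ) (hJ : ∀ l, (J l).card ≤ 2)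
    (hP : ∀ l ∈ I, ∀ j ∈ range m, P j l → j ∈ J l) :
    ∑ j ∈ range m, (I.filter (P j)).card ≤ 2 * I.card := by
  classical
  have h1 : ∑ j ∈ range m, (I.filter (P j)).card =
      ∑ l ∈ I, ((range m).filter fun j => P j l).card := by
    simp only [Finset.card_filter]
    exact Finset.sum_comm
  rw [h1]
  have h2 : ∀ l ∈ I, ((range m).filter fun j => P j l).card ≤ 2 := by
    intro l hl
    refine (Finset.card_le_card ?_).trans (hJ l)
    intro j hj
    rw [Finset.mem_filter] at hj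
    exact hP l hl j hj.1 hj.2
  refine (Finset.sum_le_sum h2).trans ?_
  rw [Finset.sum_const, smul_eq_mul, mul_comm]

theorem s_bump : S_bump := by
  classical
  intro m τ B hτ hB h1 h2
  choose had ω hω1 hω2 hω3 hω4 using hB
  let K : ℕ → Finset ℕ := fun t => (range m).filter fun j => τ j < t ∧ t < τ (j + 1)
  have hK1 : ∀ t, (K t).card ≤ 1 := by
    intro t
    rw [card_le_one]
    intro a ha b hb
    simp only [K, mem_filter, mem_range] at ha hb
    by_contra hab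
    rcases lt_or_gt_of_ne hab with h | h
    · have := hτ (show a + 1 ≤ b by omega)
      omega
    · have := hτ (show b + 1 ≤ a by omega)
      omega
  have hK2 : ∀ t, K t ⊆ range m := fun t => filter_subset _ _
  have hK3 : ∀ α t, ∀ j ∈ range m, j ∉ K t → B j α t = 0 := by
    intro α t j hj hjK
    simp only [K, mem_filter, not_and] at hjK
    rcases le_or_gt t (τ j) with h | h
    · exact h1 j α t h
    · exact h2 j α t (not_lt.1 (hjK hj h))
  have hδ : ∀ s t, s ≤ t → ∀ j ∈ range m, 0 ≤ ω j t - ω j s := by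
    intro s t hst j _
    exact sub_nonneg.2 (hω1 j hst)
  have hdiff : ∀ s t, (8 + 2 * (m : ℝ) ^ 2) * ∑ j ∈ range m, ω j t -
      (8 + 2 * (m : ℝ) ^ 2) * ∑ j ∈ range m, ω j s =
      (8 + 2 * (m : ℝ) ^ 2) * ∑ j ∈ range m, (ω j t - ω j s) := by
    intro s t
    rw [← mul_sub, ← sum_sub_distrib]
  refine ⟨?_, fun t => (8 + 2 * (m : ℝ) ^ 2) * ∑ j ∈ range m, ω j t, ?_, ?_, ?_, ?_, ?_⟩
  · intro α t ht
    exact sum_eq_zero fun j _ => had j α t ht
  · intro s t hst
    exact mul_le_mul_of_nonneg_left (sum_le_sum fun j _ => hω1 j hst) (by positivity)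
  · intro t
    exact mul_nonneg (by positivity) (sum_nonneg fun j _ => hω2 j t)
  · intro t
    have h3 : ∑ j ∈ range m, ω j t ≤ m * 16 := by
      have := sum_le_sum fun j (_ : j ∈ range m) => hω3 j t
      rwa [sum_const, card_range, nsmul_eq_mul] at this
    have h4 : (8 + 2 * (m : ℝ) ^ 2) * ∑ j ∈ range m, ω j t ≤ (8 + 2 * (m : ℝ) ^ 2) * (m * 16) :=
      mul_le_mul_of_nonneg_left h3 (by positivity)
    refine h4.trans ?_
    have h5 : (m : ℝ) ≤ (m : ℝ) ^ 3 := by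
      rcases Nat.eq_zero_or_pos m with h0 | h0
      · subst h0
        norm_num
      · have h6 : (1 : ℝ) ≤ m := by exact_mod_cast h0
        exact le_self_pow₀ h6 (by norm_num)
    nlinarith
  · -- first condition
    intro A s t hst
    show _ ≤ (8 + 2 * (m : ℝ) ^ 2) * ∑ j ∈ range m, ω j t -
      (8 + 2 * (m : ℝ) ^ 2) * ∑ j ∈ range m, ω j s
    rw [hdiff]
    have h3 : ∑ α ∈ A, (∑ j ∈ range m, B j α t - ∑ j ∈ range m, B j α s) ^ 2 ≤
        2 * ∑ j ∈ range m, ∑ α ∈ A, (B j α t - B j α s) ^ 2 := by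
      rw [sum_comm, mul_sum]
      refine sum_le_sum fun α _ => ?_
      rw [← sum_sub_distrib]
      refine card_sq _ (K t) (K s) (hK1 _) (hK1 _) (hK2 _) (hK2 _) ?_
      intro j hj hj1 hj2
      rw [hK3 α _ j hj hj1, hK3 α _ j hj hj2, sub_self]
    have h4 : (∑ j ∈ range m, ∑ α ∈ A, (B j α t - B j α s) ^ 2) ^ 2 ≤
        2 * ∑ j ∈ range m, (∑ α ∈ A, (B j α t - B j α s) ^ 2) ^ 2 := by
      refine card_sq _ (K t) (K s) (hK1 _) (hK1 _) (hK2 _) (hK2 _) ?_
      intro j hj hj1 hj2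
      refine sum_eq_zero fun α _ => ?_
      rw [hK3 α _ j hj hj1, hK3 α _ j hj hj2, sub_self]
      norm_num
    have h5 : ∑ j ∈ range m, (∑ α ∈ A, (B j α t - B j α s) ^ 2) ^ 2 ≤
        ∑ j ∈ range m, (ω j t - ω j s) := sum_le_sum fun j _ => (hω4 j).1 A s t hst
    have h6 : 0 ≤ ∑ α ∈ A, (∑ j ∈ range m, B j α t - ∑ j ∈ range m, B j α s) ^ 2 :=
      sum_nonneg fun _ _ => sq_nonneg _
    have h7 := pow_le_pow_left₀ h6 h3 2
    have h8 : 0 ≤ ∑ j ∈ range m, (ω j t - ω j s) := sum_nonneg (hδ s t hst)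
    have h9 : 0 ≤ (m : ℝ) ^ 2 * ∑ j ∈ range m, (ω j t - ω j s) := mul_nonneg (by positivity) h8
    have h10 : (2 * ∑ j ∈ range m, ∑ α ∈ A, (B j α t - B j α s) ^ 2) ^ 2 =
        4 * (∑ j ∈ range m, ∑ α ∈ A, (B j α t - B j α s) ^ 2) ^ 2 := by ring
    rw [h10] at h7
    linarith
  · -- second condition
    intro α I w s t hw hst hI
    show _ ≤ (I.card : ℝ) * ((8 + 2 * (m : ℝ) ^ 2) * ∑ j ∈ range m, ω j t -
      (8 + 2 * (m : ℝ) ^ 2) * ∑ j ∈ range m, ω j s)
    rw [hdiff]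
    let d : ℕ → ℕ → ℝ := fun j l => B j α (w (2 * l + 1)) - B j α (w (2 * l))
    let x : ℕ → ℝ := fun j => ∑ l ∈ I, |d j l|
    have hx0 : ∀ j, 0 ≤ x j := fun j => sum_nonneg fun _ _ => abs_nonneg _
    have hx1 : ∀ j ∈ range m, x j ^ 4 ≤ ((I.filter fun l => d j l ≠ 0).card : ℝ) *
        (ω j t - ω j s) := by
      intro j _
      have h3 : x j = ∑ l ∈ I.filter fun l => d j l ≠ 0, |d j l| := by
        symm
        refine sum_subset (filter_subset _ _) fun l hl hl' => ?_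
        rw [mem_filter, not_and, not_not] at hl'
        rw [hl' hl, abs_zero]
      rw [h3]
      exact (hω4 j).2 α _ w s t hw hst fun l hl => hI l (mem_filter.1 hl).1
    have hsum : ∑ l ∈ I, |∑ j ∈ range m, B j α (w (2 * l + 1)) -
        ∑ j ∈ range m, B j α (w (2 * l))| ≤ ∑ j ∈ range m, x j := by
      have h3 : ∑ j ∈ range m, x j = ∑ l ∈ I, ∑ j ∈ range m, |d j l| := sum_comm
      rw [h3]
      refine sum_le_sum fun l _ => ?_
      rw [← sum_sub_distrib]
      exact abs_sum_le_sum_abs _ _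
    have hcard : ∑ j ∈ range m, ((I.filter fun l => d j l ≠ 0).card : ℝ) ≤ 2 * I.card := by
      have h3 := card_two m I (fun j l => d j l ≠ 0)
        (fun l => K (w (2 * l + 1)) ∪ K (w (2 * l)))
        (fun l => (card_union_le _ _).trans (by
          have := hK1 (w (2 * l + 1))
          have := hK1 (w (2 * l))
          omega))
        (fun l _ j hj hne => by
          rw [mem_union]
          by_contra hc
          rw [not_or] at hc
          apply hne
          show B j α (w (2 * l + 1)) - B j α (w (2 * l)) = 0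
          rw [hK3 α _ j hj hc.1, hK3 α _ j hj hc.2, sub_self])
      exact_mod_cast h3
    have h8 : 0 ≤ ∑ j ∈ range m, (ω j t - ω j s) := sum_nonneg (hδ s t hst)
    have hCS : (∑ j ∈ range m, x j ^ 2) ^ 2 ≤
        (∑ j ∈ range m, ((I.filter fun l => d j l ≠ 0).card : ℝ)) *
          ∑ j ∈ range m, (ω j t - ω j s) := by
      refine sum_sq_le_sum_mul_sum_of_sq_le_mul _ (fun j _ => Nat.cast_nonneg _)
        (hδ s t hst) fun j hj => ?_
      have h3 : (x j ^ 2) ^ 2 = x j ^ 4 := by ring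
      rw [h3]
      exact hx1 j hj
    have hm1 : (∑ j ∈ range m, x j) ^ 2 ≤ m * ∑ j ∈ range m, x j ^ 2 := by
      have h3 := sq_sum_le_card_mul_sum_sq (s := range m) (f := x)
      rwa [card_range] at h3
    have hm2 : (∑ j ∈ range m, x j) ^ 4 ≤
        (m : ℝ) ^ 2 * (2 * I.card * ∑ j ∈ range m, (ω j t - ω j s)) := by
      have h3 := pow_le_pow_left₀ (sq_nonneg _) hm1 2
      have h4 : ((∑ j ∈ range m, x j) ^ 2) ^ 2 = (∑ j ∈ range m, x j) ^ 4 := by ring
      rw [h4, mul_pow] at h3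
      refine h3.trans (mul_le_mul_of_nonneg_left ?_ (sq_nonneg _))
      exact hCS.trans (mul_le_mul_of_nonneg_right hcard h8)
    have h9 : 0 ≤ ∑ l ∈ I, |∑ j ∈ range m, B j α (w (2 * l + 1)) -
        ∑ j ∈ range m, B j α (w (2 * l))| := sum_nonneg fun _ _ => abs_nonneg _
    refine (pow_le_pow_left₀ h9 hsum 4).trans (hm2.trans ?_)
    have h10 : 0 ≤ (I.card : ℝ) * ∑ j ∈ range m, (ω j t - ω j s) :=
      mul_nonneg (Nat.cast_nonneg _) h8
    have h11 : (I.card : ℝ) * ((8 + 2 * (m : ℝ) ^ 2) * ∑ j ∈ range m, (ω j t - ω j s)) =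
        8 * ((I.card : ℝ) * ∑ j ∈ range m, (ω j t - ω j s)) +
          (m : ℝ) ^ 2 * (2 * I.card * ∑ j ∈ range m, (ω j t - ω j s)) := by ring
    rw [h11]
    linarith

end Pool.Agent.H307.IC
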